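import Pool.Agent.K7.H1.TU.ET2
import Pool.Agent.K7.H1.TO.Main
import Pool.Agent.TH333.UP.Final
set_option autoImplicit false

/-!
The main theorem on the toric hypersurfaces with unit parameters.
-/

namespace Pool.Agent.K7.H1.TU

open MvPolynomial

open Pool.Agent.TH826.MK (Torus symb KQ Unramified)

open Pool.Agent.TH826.SX (det_ne_zero_near)

open Pool.Agent.TH577.UA (det_ne_zero_of_tri)

open Pool.Agent.K7.H1.TO Pool.Agent.K7.H1.TO.Arr

variable {K : Type*} [Field K] {d m : ℕ} {F : Arr K d m}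

theorem exists_nu (hα : ∀ e, F.al e ≠ 0) : ∃ ν : Fin (d + 1) → ℤ, ∀ e, ν ⬝ᵥ F.al e ≠ 0 := by
  classical
  set p : Fin m → Polynomial ℤ := fun e => ∑ j : Fin (d + 1),
    Polynomial.monomial (j : ℕ) (F.al e j) with hp
  have hp0 : ∀ e, p e ≠ 0 := by
    intro e h
    refine hα e (funext fun j => ?_)
    have h1 : (p e).coeff j = 0 := by rw [h, Polynomial.coeff_zero]
    rw [hp, Polynomial.finsetSum_coeff, Finset.sum_eq_single j] at h1
    · rw [Polynomial.coeff_monomial, if_pos rfl] at h1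
      exact h1
    · intro i _ hi
      rw [Polynomial.coeff_monomial, if_neg fun h => hi (Fin.ext h)]
    · exact fun h => absurd (Finset.mem_univ _) h
  have hprod : ∏ e, p e ≠ 0 := Finset.prod_ne_zero_iff.2 fun e _ => hp0 e
  obtain ⟨t, ht⟩ : ∃ t : ℤ, (∏ e, p e).eval t ≠ 0 := by
    by_contra hcon
    push Not at hcon
    exact hprod (Polynomial.funext fun r => by rw [hcon, Polynomial.eval_zero])
  rw [Polynomial.eval_prod] at ht
  refine ⟨fun j => t ^ (j : ℕ), fun e => ?_⟩
  have h2 := Finset.prod_ne_zero_iff.1 ht e (Finset.mem_univ e)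
  rw [hp, Polynomial.eval_finsetSum] at h2
  simp only [Polynomial.eval_monomial] at h2
  unfold dotProduct
  intro h
  refine h2 ?_
  rw [← h]
  exact Finset.sum_congr rfl fun j _ => mul_comm _ _

theorem exists_A (hα : ∀ e, F.al e ≠ 0) : ∃ A : Fin (d + 1) → Fin (d + 1) → ℤ,
    (Matrix.of A).det ≠ 0 ∧ ∀ e, (∀ k, 0 < A k ⬝ᵥ F.al e) ∨ ∀ k, A k ⬝ᵥ F.al e < 0 := by
  classical
  obtain ⟨ν, hν⟩ := exists_nu hα
  set M : ℤ := 2 + ∑ e, ∑ k, |F.al e k| with hM
  have hnn : 0 ≤ ∑ e, ∑ k, |F.al e k| := Finset.sum_nonneg fun e _ =>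
    Finset.sum_nonneg fun k _ => abs_nonneg _
  have hle : ∀ e k, |F.al e k| < M := by
    intro e k
    have h1 := Finset.single_le_sum (f := fun k => |F.al e k|) (fun k _ => abs_nonneg _)
      (Finset.mem_univ k)
    have h2 := Finset.single_le_sum (f := fun e => ∑ k, |F.al e k|)
      (fun e _ => Finset.sum_nonneg fun k _ => abs_nonneg _) (Finset.mem_univ e)
    have h3 : |F.al e k| ≤ ∑ k, |F.al e k| := h1
    have h4 : ∑ k, |F.al e k| ≤ ∑ e, ∑ k, |F.al e k| := h2
    omega
  refine ⟨fun k j => M * ν j + if k = j then 1 else 0, ?_, fun e => ?_⟩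
  · have h1 : (Matrix.of fun k j : Fin (d + 1) => M * ν j + if k = j then 1 else 0) =
        1 + Matrix.replicateCol Unit (fun _ => (1 : ℤ)) *
          Matrix.replicateRow Unit (fun j => M * ν j) := by
      ext k j
      rw [Matrix.add_apply, Matrix.mul_apply, Matrix.of_apply, Matrix.one_apply]
      simp
      ring
    rw [h1, Matrix.det_one_add_replicateCol_mul_replicateRow]
    unfold dotProduct
    simp only [mul_one]
    rw [← Finset.mul_sum]
    intro h
    have h2 : M ∣ 1 := ⟨-∑ j, ν j, by linear_combination h⟩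
    have h3 := Int.le_of_dvd one_pos h2
    omega
  · have h1 : ∀ k : Fin (d + 1), (fun j => M * ν j + if k = j then 1 else 0) ⬝ᵥ F.al e =
        M * (ν ⬝ᵥ F.al e) + F.al e k := by
      intro k
      unfold dotProduct
      simp only [add_mul, Finset.sum_add_distrib, ite_mul, one_mul, zero_mul, Finset.sum_ite_eq,
        Finset.mem_univ, if_true]
      rw [Finset.mul_sum]
      congr 1
      exact Finset.sum_congr rfl fun j _ => mul_assoc _ _ _
    simp only [h1]
    have hM0 : 0 < M := by omega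
    rcases lt_or_gt_of_ne (hν e) with h | h
    · right
      intro k
      have h2 := hle e k
      have h3 := le_abs_self (F.al e k)
      nlinarith
    · left
      intro k
      have h2 := hle e k
      have h3 := neg_abs_le (F.al e k)
      nlinarith

/-- The entries of the symbols: for `none` the coordinates `x_0, ..., x_d`, for `s = (T, k)` the
quotients `(x^α - ζ_{e,k_l+1}) / (x^α - ζ_{e,0})`, `e = T_l`, `α = α_e`. -/
noncomputable def uent (σ : K →+* ℂ) (F : Arr K d m) (lam : K) (o : Option (Ix σ F)) :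
    Fin (d + 1) → (F.TRing lam)ˣ :=
  Option.elim o (F.tx lam) fun s => F.ent lam s.1.1 s.1.2

theorem exists_tori2 (σ τ : K →+* ℂ) (hα : ∀ e, F.al e ≠ 0) (hz : ∀ e i, F.z e i ≠ 0)
    (hinj : ∀ e, Function.Injective (F.z e)) (hg : F.g = 1) (hin : Inner F) :
    ∃ C : ℝ, 0 < C ∧ ∀ lam : K, lam ≠ 0 → C ≤ ‖σ lam‖ → ‖τ lam‖ * C ≤ 1 →
      ∃ Γ : Option (Ix σ F) → Torus (F.TRing lam) d,
        (∀ θ x, (Γ none).e θ (F.tcst lam x) = τ x) ∧
        (∀ s θ x, (Γ (some s)).e θ (F.tcst lam x) = σ x) ∧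
        (∀ t θ, ∃ j, (Γ t).e θ (F.tpol lam (dlog j (F.Phi lam))) ≠ 0) ∧
        (Matrix.of fun t o : Option (Ix σ F) => (Γ t).reg (symb (uent σ F lam o))).det ≠ 0 := by
  classical
  have hg' : F.g ≠ 0 := by
    rw [hg]
    exact one_ne_zero
  obtain ⟨A, hAdet, hA⟩ := exists_A hα
  choose P hP hk hn using fun s : Ix σ F => s.2.2.2
  have hex := fun s : Ix σ F => exists_torus2 (F := F) σ s.2.2.1 (hP s) hα hz hg' (hk s)
      (fun s' : Ix σ F => s'.1.1) (fun s' => s'.1.2)
  choose D hD0 hT using hex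
  obtain ⟨D1, hD10, hE⟩ := exists_end (F := F) τ hAdet hA hz hg hin
    (fun s' : Ix σ F => s'.1.1) (fun s' => s'.1.2)
  set M0 : Matrix (Option (Ix σ F)) (Option (Ix σ F)) ℝ := Matrix.of fun t o =>
    Option.elim t (Option.elim o D1 fun _ => 0) fun s =>
      Option.elim o 0 fun s' => F.lead σ s.1.1 (P s) s'.1.1 s'.1.2 * D s with hM0
  have hM : M0.det ≠ 0 := by
    refine det_ne_zero_of_tri (fun o : Option (Ix σ F) =>
      Option.elim o 0 fun s => ∑ l, (s.1.1 l : ℕ)) _ (fun t => ?_) (fun t o h => ?_)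
    · cases t with
      | none => exact hD10
      | some s => exact mul_ne_zero (lead_self σ hinj s.2.2.1 (hk s)) (hD0 s)
    · cases t with
      | none =>
        cases o with
        | none => exact Or.inl rfl
        | some s' => exact absurd rfl h
      | some s =>
        cases o with
        | none => exact absurd rfl h
        | some s' =>
          have h' : F.lead σ s.1.1 (P s) s'.1.1 s'.1.2 ≠ 0 := left_ne_zero_of_mul h
          rcases lead_other σ hinj s.2.1 s.2.2.1 (hk s) (hn s) s'.2.1 h' with h1 | h1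
          · exact Or.inl (congrArg some (Subtype.ext h1))
          · exact Or.inr h1
  obtain ⟨δ, hδ, hdet⟩ := det_ne_zero_near M0 hM
  have hδ2 : 0 < δ / 2 := by linarith
  choose Λ hΛ1 hΛ using fun s : Ix σ F => hT s (δ / 2) hδ2
  obtain ⟨Λ1, hΛ10, hΛ1'⟩ := hE (δ / 2) hδ2
  set C : ℝ := ∑ s, |Λ s| + 2 + 1 / Λ1 with hC
  have hinv : 0 < 1 / Λ1 := by positivity
  have hsum : 0 ≤ ∑ s, |Λ s| := Finset.sum_nonneg fun J _ => abs_nonneg _
  have hΛC : ∀ s, Λ s ≤ C := by
    intro s
    have h1 := Finset.single_le_sum (f := fun s => |Λ s|) (fun s _ => abs_nonneg _)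
      (Finset.mem_univ s)
    have h2 := le_abs_self (Λ s)
    have h3 : |Λ s| ≤ ∑ s, |Λ s| := h1
    linarith
  refine ⟨C, by linarith, fun lam hl0 hσ hτ => ?_⟩
  have hτ' : ‖τ lam‖ < Λ1 := by
    have h0 : 0 < ‖τ lam‖ := norm_pos_iff.2 ((map_ne_zero τ).2 hl0)
    have h1 : ‖τ lam‖ * (1 / Λ1) < 1 := by
      have : ‖τ lam‖ * (1 / Λ1) < ‖τ lam‖ * C := mul_lt_mul_of_pos_left (by linarith) h0
      linarith
    rw [mul_one_div, div_lt_one hΛ10] at h1
    exact h1
  choose Γ hΓ1 hΓ3 hΓ4 hΓ2 using fun s => hΛ s lam ((hΛC s).trans hσ)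
  obtain ⟨hlog, Γ0, h01, h03, h04, h02⟩ := hΛ1' lam hl0 hτ'
  refine ⟨fun t => Option.elim t Γ0 Γ, h01, fun s => hΓ1 s, fun t => ?_, ?_⟩
  · cases t with
    | none => exact h03
    | some s => exact hΓ3 s
  have hs : -Real.log ‖σ lam‖ ≠ 0 := by
    have : 0 < Real.log ‖σ lam‖ := Real.log_pos (by linarith)
    linarith
  set c : Option (Ix σ F) → ℝ := fun t =>
    Option.elim t (Real.log ‖τ lam‖) fun _ => -Real.log ‖σ lam‖ with hc
  have hc0 : ∀ t, c t ≠ 0 := by
    intro t
    cases t with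
    | none => exact hlog.ne
    | some s => exact hs
  set Γ' : Option (Ix σ F) → Torus (F.TRing lam) d := fun t => Option.elim t Γ0 Γ with hΓ'
  have h1 : (Matrix.of fun t o : Option (Ix σ F) =>
      (Γ' t).reg (symb (uent σ F lam o)) / c t).det ≠ 0 := by
    refine hdet _ fun t o => ?_
    rw [hM0, Matrix.of_apply, Matrix.of_apply]
    cases t with
    | none =>
      cases o with
      | none => exact lt_of_le_of_lt h04 (show δ / 2 < δ by linarith)
      | some s' =>
        have := h02 s'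
        refine lt_of_le_of_lt ?_ (show δ / 2 < δ by linarith)
        rw [← sub_zero (Γ0.reg _ / _)] at this
        exact this
    | some s =>
      cases o with
      | none =>
        have := hΓ4 s
        refine lt_of_le_of_lt ?_ (show δ / 2 < δ by linarith)
        rw [← sub_zero ((Γ s).reg _ / _)] at this
        exact this
      | some s' => exact lt_of_le_of_lt (hΓ2 s s') (show δ / 2 < δ by linarith)
  have h2 : (Matrix.of fun t o : Option (Ix σ F) => (Γ' t).reg (symb (uent σ F lam o))) =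
      Matrix.of fun t o => c t * (Matrix.of fun t o : Option (Ix σ F) =>
        (Γ' t).reg (symb (uent σ F lam o)) / c t) t o := by
    ext t o
    rw [Matrix.of_apply, Matrix.of_apply, Matrix.of_apply]
    have := hc0 t
    field_simp
  rw [h2, Matrix.det_mul_column]
  exact mul_ne_zero (Finset.prod_ne_zero_iff.2 fun t _ => hc0 t) h1

end Pool.Agent.K7.H1.TU
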