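import Pool.Agent.K7.H1.TO.Unr
import Pool.Agent.K7.H52.TF.Temp
set_option autoImplicit false

/-!
The symbol of the coordinates is unramified.
-/

namespace Pool.Agent.K7.H1.TU

open MvPolynomial

open scoped WithZero

open Pool.Agent.TH826.MK

open Pool.Agent.K7.H1.TO Pool.Agent.K7.H1.TO.Arr

open Pool.Agent.K7.H52.TF (mono symb_mem_of_mono)

variable {K : Type*} [Field K] {d m : ℕ}

/-- `γ` lies in the interior of the Newton polytope of `∏_e ∏_i (x^{α_e} - ζ_{e,i}) ^ (w_{e,i} + 1)`:
`⟨a, γ⟩ < ∑_e ∑_i (w_{e,i} + 1) max (0, ⟨a, α_e⟩)` for all `a ≠ 0` in `ℤ^(d+1)`. -/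
def Inner (F : Arr K d m) : Prop :=
  ∀ a : Fin (d + 1) → ℤ, a ≠ 0 →
    a ⬝ᵥ F.ga < ∑ e, ∑ i, ((F.w e i : ℤ) + 1) * max 0 (a ⬝ᵥ F.al e)

variable {F : Arr K d m} {lam : K} {L : Type*} [Field L] (f : F.TRing lam →+* L)

theorem v_xz (v : Valuation L ℤᵐ⁰) {a : Fin (d + 1) → ℤ}
    (ha : ∀ j, v (Units.map (f : F.TRing lam →* L) (F.tx lam j) : L) = WithZero.exp (a j))
    (δ : Fin (d + 1) → ℤ) : v (xz f δ : L) = WithZero.exp (a ⬝ᵥ δ) := by
  rw [xz_eq, Units.coe_prod, map_prod]
  have h : ∀ s : Finset (Fin (d + 1)), ∏ j ∈ s,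
      v ((Units.map (f : F.TRing lam →* L) (F.tx lam j) ^ δ j : Lˣ) : L) =
        WithZero.exp (∑ j ∈ s, a j * δ j) := by
    intro s
    classical
    induction s using Finset.induction_on with
    | empty => simp
    | insert j s hj ih =>
      rw [Finset.prod_insert hj, Finset.sum_insert hj, ih, WithZero.exp_add,
        Units.val_zpow_eq_zpow_val, map_zpow₀, ha, ← WithZero.exp_zsmul, smul_eq_mul, mul_comm (δ j)]
  exact h _

theorem tx_mem_unramified (hz : ∀ e i, ∃ n : ℕ, 0 < n ∧ F.z e i ^ n = 1) (hα : ∀ e, F.al e ≠ 0)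
    (hg : F.g = 1) (hin : Inner F) (hlam : IsIntegral ℤ lam) (hlam' : IsIntegral ℤ lam⁻¹)
    (hl0 : lam ≠ 0) : KQ.map (d + 1) f (symb (F.tx lam)) ∈ Unramified L (d + 1) := by
  classical
  rw [KQ.map_symb]
  unfold Unramified
  simp only [Submodule.mem_iInf]
  intro v _
  choose a ha using fun j => exists_ord v (Units.map (f : F.TRing lam →* L) (F.tx lam j))
  by_cases ha0 : a = 0
  · refine Submodule.subset_span ⟨_, fun l => ?_, rfl⟩
    rw [ha, ha0]
    rfl
  have hvl : v (f (F.tcst lam lam)) = 1 := by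
    have h1 := v_cst_le f v hlam
    have h2 := v_cst_le f v hlam'
    refine (v_mul_eq_one h1 h2 ?_).1
    rw [← map_mul, ← map_mul, ← map_mul, mul_inv_cancel₀ hl0, map_one, map_one, map_one]
  have hxz := v_xz f v ha
  by_cases hc : ∃ e i, v (f (F.tpol lam (F.fac e i))) < WithZero.exp (max 0 (a ⬝ᵥ F.al e))
  · obtain ⟨e, i, hei⟩ := hc
    rw [f_fac] at hei
    have hvz := v_z f v (hz e i)
    have h0 : a ⬝ᵥ F.al e = 0 := by
      by_contra hne
      rcases lt_or_gt_of_ne hne with h1 | h1
      · rw [max_eq_left h1.le, Valuation.map_sub_eq_of_lt_right v (by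
          rw [hvz, hxz, ← WithZero.exp_zero]
          exact WithZero.exp_lt_exp.2 h1), hvz, WithZero.exp_zero] at hei
        exact lt_irrefl _ hei
      · rw [max_eq_right h1.le, Valuation.map_sub_eq_of_lt_left v (by
          rw [hvz, hxz, ← WithZero.exp_zero]
          exact WithZero.exp_lt_exp.2 h1), hxz] at hei
        exact lt_irrefl _ hei
    rw [h0, max_self, WithZero.exp_zero] at hei
    obtain ⟨n, hn, hroot⟩ := hz e i
    obtain ⟨j0, hj0⟩ : ∃ j, F.al e j ≠ 0 := by
      by_contra hcon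
      push Not at hcon
      exact hα e (funext hcon)
    refine symb_mem_of_mono _ ((1 : Matrix (Fin (d + 1)) (Fin (d + 1)) ℤ).updateRow j0 (F.al e))
      ?_ ?_
    · have h2 := Matrix.cramer_transpose_apply (1 : Matrix (Fin (d + 1)) (Fin (d + 1)) ℤ)
        (F.al e) j0
      rw [← h2, Matrix.transpose_one, Matrix.cramer_one]
      exact hj0
    · refine mem_unitPart_of_pow v j0 _ hn.ne' ?_
      rw [Matrix.updateRow_self]
      have h3 : mono (fun j => Units.map (f : F.TRing lam →* L) (F.tx lam j)) (F.al e) =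
          xz f (F.al e) := (xz_eq f _).symm
      rw [h3]
      set z : L := (xz f (F.al e) : L) with hzdef
      set b : L := f (F.tcst lam (F.z e i)) with hb
      have hbn : b ^ n = 1 := by rw [hb, ← map_pow, ← map_pow, hroot, map_one, map_one]
      have hvz1 : v z = 1 := by
        rw [hxz, h0, WithZero.exp_zero]
      have h4 : z ^ n - 1 = (z - b) * ∑ i ∈ Finset.range n, z ^ i * b ^ (n - 1 - i) := by
        rw [mul_comm, Commute.geom_sum₂_mul (Commute.all _ _), hbn]
      rw [h4, map_mul]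
      refine mul_lt_one_of_lt_of_le hei ?_
      refine Valuation.map_sum_le v fun i _ => ?_
      rw [map_mul, map_pow, map_pow, hvz, hvz1, one_pow, one_pow, one_mul]
  · exfalso
    push Not at hc
    have hfac : ∀ e i, v (f (F.tpol lam (F.fac e i))) = WithZero.exp (max 0 (a ⬝ᵥ F.al e)) := by
      intro e i
      refine le_antisymm ?_ (hc e i)
      rw [f_fac]
      refine (Valuation.map_sub v _ _).trans (max_le ?_ ?_)
      · rw [hxz]
        exact WithZero.exp_le_exp.2 (le_max_right _ _)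
      · rw [v_z f v (hz e i), ← WithZero.exp_zero]
        exact WithZero.exp_le_exp.2 (le_max_left _ _)
    have hΦ : v (f (F.tpol lam (F.Phi lam))) = 1 := by rw [tpol_Phi, map_one, map_one]
    unfold Arr.Phi at hΦ
    rw [hg, map_one, one_mul, map_mul, map_mul, map_mul, map_mul, map_mul, map_mul, f_mon, hxz,
      show v (f (F.tpol lam (C lam))) = 1 from hvl, one_mul] at hΦ
    have hprod : v (f (F.tpol lam (∏ e, ∏ i, F.fac e i ^ (F.w e i + 1)))) =
        WithZero.exp (∑ e, ∑ i, ((F.w e i : ℤ) + 1) * max 0 (a ⬝ᵥ F.al e)) := by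
      simp only [map_prod, map_pow, hfac]
      have hexp : ∀ {ι : Type} (s : Finset ι) (b : ι → ℤ),
          ∏ i ∈ s, WithZero.exp (b i) = WithZero.exp (∑ i ∈ s, b i) := by
        intro ι s b
        induction s using Finset.induction_on with
        | empty => simp
        | insert j s hj ih => rw [Finset.prod_insert hj, Finset.sum_insert hj, ih, WithZero.exp_add]
      rw [← hexp]
      refine Finset.prod_congr rfl fun e _ => ?_
      rw [← hexp]
      refine Finset.prod_congr rfl fun i _ => ?_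
      rw [← WithZero.exp_nsmul, nsmul_eq_mul]
      push_cast
      rfl
    rw [hprod, ← WithZero.exp_add, ← WithZero.exp_zero, WithZero.exp_inj, dotProduct_neg] at hΦ
    have := hin a ha0
    linarith

end Pool.Agent.K7.H1.TU
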