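import Pool.Agent.K7.H1.TU.VT
import Pool.Agent.K7.H1.TU.Unr
set_option autoImplicit false

/-!
The torus at the end of the hypersurface, at which the coordinates tend to `0` and `∞`.
-/

namespace Pool.Agent.K7.H1.TU

open MvPolynomial

open Filter Topology

open Pool.Agent.TH826.MK (Torus Good pairing symb)

open Pool.Agent.TH577.UA (mmon contDiff_mmon mmon_zero_ne mmon_zero_eq mrow yrow det_yrow)

open Pool.Agent.K7.H1.AH (mmon_eq crd mmon_smul eventually_lt_norm)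

open Pool.Agent.K7.H1.TO Pool.Agent.K7.H1.TO.Arr

variable {K : Type*} [Field K] {d m : ℕ} {F : Arr K d m}

/-- the point with the coordinates `∏_i y_i ^ (-A_ij)` -/
noncomputable def xe (A : Fin (d + 1) → Fin (d + 1) → ℤ) (y : (Fin d → ℂ) × ℂ)
    (j : Fin (d + 1)) : ℂ := ∏ i, crd y i ^ (-(A i j))

theorem xe_ne {A : Fin (d + 1) → Fin (d + 1) → ℤ} {y : (Fin d → ℂ) × ℂ} (hy : ∀ i, crd y i ≠ 0)
    (j : Fin (d + 1)) : xe A y j ≠ 0 :=
  Finset.prod_ne_zero_iff.2 fun i _ => zpow_ne_zero _ (hy i)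

theorem prod_zpow_const {ι : Type*} (s : Finset ι) {c : ℂ} (hc : c ≠ 0) (b : ι → ℤ) :
    ∏ j ∈ s, c ^ b j = c ^ ∑ j ∈ s, b j := by
  classical
  induction s using Finset.induction_on with
  | empty => simp
  | insert j s hj ih => rw [Finset.prod_insert hj, Finset.sum_insert hj, ih, zpow_add₀ hc]

theorem prod_xe {A : Fin (d + 1) → Fin (d + 1) → ℤ} {y : (Fin d → ℂ) × ℂ}
    (hy : ∀ i, crd y i ≠ 0) (δ : Fin (d + 1) → ℤ) :
    ∏ j, xe A y j ^ δ j = ∏ i, crd y i ^ (-(A i ⬝ᵥ δ)) := by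
  unfold xe
  simp only [← Finset.prod_zpow]
  rw [Finset.prod_comm]
  refine Finset.prod_congr rfl fun i _ => ?_
  simp only [← zpow_mul]
  rw [prod_zpow_const _ (hy i)]
  congr 1
  unfold dotProduct
  rw [← Finset.sum_neg_distrib]
  exact Finset.sum_congr rfl fun j _ => by ring

open Classical in
/-- the factors without zeros -/
noncomputable def Ve (σ : K →+* ℂ) (F : Arr K d m) (A : Fin (d + 1) → Fin (d + 1) → ℤ)
    (e : Fin m) (i : Fin (F.r e + 1)) (y : (Fin d → ℂ) × ℂ) : ℂ :=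
  if ∀ k, 0 < A k ⬝ᵥ F.al e then 1 - σ (F.z e i) * mmon (fun k => (A k ⬝ᵥ F.al e).toNat) y
  else mmon (fun k => (-(A k ⬝ᵥ F.al e)).toNat) y - σ (F.z e i)

theorem contDiff_Ve (σ : K →+* ℂ) (A : Fin (d + 1) → Fin (d + 1) → ℤ) (e : Fin m)
    (i : Fin (F.r e + 1)) : ContDiff ℂ 2 (Ve σ F A e i) := by
  unfold Ve
  split_ifs
  · exact contDiff_const.sub (contDiff_const.mul (contDiff_mmon _))
  · exact (contDiff_mmon _).sub contDiff_const

theorem Ve_zero (σ : K →+* ℂ) {A : Fin (d + 1) → Fin (d + 1) → ℤ}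
    (hA : ∀ e, (∀ k, 0 < A k ⬝ᵥ F.al e) ∨ ∀ k, A k ⬝ᵥ F.al e < 0)
    (hz : ∀ e i, F.z e i ≠ 0) (e : Fin m) (i : Fin (F.r e + 1)) : Ve σ F A e i 0 ≠ 0 := by
  unfold Ve
  split_ifs with h
  · rw [mmon_zero_ne ⟨0, by have := h 0; omega⟩, mul_zero, sub_zero]
    exact one_ne_zero
  · have h1 := (hA e).resolve_left h
    rw [mmon_zero_ne ⟨0, by have := h1 0; omega⟩, zero_sub]
    exact neg_ne_zero.2 ((map_ne_zero σ).2 (hz e i))

theorem fac_xe (σ : K →+* ℂ) {A : Fin (d + 1) → Fin (d + 1) → ℤ}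
    (hA : ∀ e, (∀ k, 0 < A k ⬝ᵥ F.al e) ∨ ∀ k, A k ⬝ᵥ F.al e < 0) {y : (Fin d → ℂ) × ℂ}
    (hy : ∀ i, crd y i ≠ 0) (e : Fin m) (i : Fin (F.r e + 1)) :
    ∏ j, xe A y j ^ F.al e j - σ (F.z e i) =
      (∏ k, crd y k ^ (-(max 0 (A k ⬝ᵥ F.al e)))) * Ve σ F A e i y := by
  rw [prod_xe hy]
  unfold Ve
  split_ifs with h
  · have h1 : ∀ k, max 0 (A k ⬝ᵥ F.al e) = A k ⬝ᵥ F.al e := fun k => max_eq_right (h k).le
    simp only [h1]
    have h2 : (∏ k, crd y k ^ (-(A k ⬝ᵥ F.al e))) *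
        mmon (fun k => (A k ⬝ᵥ F.al e).toNat) y = 1 := by
      rw [mmon_eq, ← Finset.prod_mul_distrib]
      refine Finset.prod_eq_one fun k _ => ?_
      rw [← zpow_natCast, ← zpow_add₀ (hy k), Int.toNat_of_nonneg (h k).le, neg_add_cancel,
        zpow_zero]
    linear_combination σ (F.z e i) * h2
  · have h0 := (hA e).resolve_left h
    have h1 : ∀ k, max 0 (A k ⬝ᵥ F.al e) = 0 := fun k => max_eq_left (h0 k).le
    simp only [h1, neg_zero, zpow_zero, Finset.prod_const_one, one_mul]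
    congr 1
    rw [mmon_eq]
    refine Finset.prod_congr rfl fun k _ => ?_
    rw [← zpow_natCast, Int.toNat_of_nonneg (by have := h0 k; omega)]

/-- the order of the pole -/
def nz (F : Arr K d m) (A : Fin (d + 1) → Fin (d + 1) → ℤ) (k : Fin (d + 1)) : ℤ :=
  ∑ e, ∑ i : Fin (F.r e + 1), ((F.w e i : ℤ) + 1) * max 0 (A k ⬝ᵥ F.al e) - A k ⬝ᵥ F.ga

/-- the product of the factors without zeros -/
noncomputable def We (σ : K →+* ℂ) (F : Arr K d m) (A : Fin (d + 1) → Fin (d + 1) → ℤ)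
    (y : (Fin d → ℂ) × ℂ) : ℂ := ∏ e, ∏ i, Ve σ F A e i y ^ (F.w e i + 1)

theorem eval_Phi_xe (σ : K →+* ℂ) (hg : F.g = 1) {A : Fin (d + 1) → Fin (d + 1) → ℤ}
    (hA : ∀ e, (∀ k, 0 < A k ⬝ᵥ F.al e) ∨ ∀ k, A k ⬝ᵥ F.al e < 0) {y : (Fin d → ℂ) × ℂ}
    (hy : ∀ i, crd y i ≠ 0) (lam : K) :
    eval₂ σ (vals (xe A y)) (F.Phi lam) =
      σ lam * (∏ k, crd y k ^ (-(nz F A k))) * We σ F A y := by
  rw [eval_Phi (xe_ne hy), hg, eval₂_one, one_mul, prod_xe hy]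
  simp only [fac_xe σ hA hy, mul_pow, Finset.prod_mul_distrib]
  unfold We
  rw [← mul_assoc]
  congr 1
  rw [mul_assoc]
  congr 1
  simp only [← Finset.prod_pow]
  have h1 : ∀ e : Fin m, ∏ i : Fin (F.r e + 1), ∏ k, (crd y k ^ (-max 0 (A k ⬝ᵥ F.al e))) ^
      (F.w e i + 1) = ∏ k, crd y k ^ ∑ i : Fin (F.r e + 1),
        -(((F.w e i : ℤ) + 1) * max 0 (A k ⬝ᵥ F.al e)) := by
    intro e
    rw [Finset.prod_comm]
    refine Finset.prod_congr rfl fun k _ => ?_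
    rw [← prod_zpow_const _ (hy k)]
    refine Finset.prod_congr rfl fun i _ => ?_
    rw [← zpow_natCast, ← zpow_mul]
    congr 1
    push_cast
    ring
  simp only [h1]
  rw [Finset.prod_comm, ← Finset.prod_mul_distrib]
  refine Finset.prod_congr rfl fun k _ => ?_
  rw [prod_zpow_const _ (hy k), ← zpow_add₀ (hy k)]
  congr 1
  unfold nz
  rw [dotProduct_neg]
  simp only [Finset.sum_neg_distrib]
  ring

theorem grad_curve {σ : K →+* ℂ} {Q : Pol K d} {x : ℂ → Fin (d + 1) → ℂ} {x' : Fin (d + 1) → ℂ}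
    (hx : ∀ j, HasDerivAt (fun τ => x τ j) (x' j) 1) (hx0 : ∀ j, x 1 j ≠ 0) {D : ℂ}
    (hD : HasDerivAt (fun τ => eval₂ σ (vals (x τ)) Q) D 1) (hD0 : D ≠ 0) :
    ∃ j, eval₂ σ (vals (x 1)) (dlog j Q) ≠ 0 := by
  by_contra hcon
  push Not at hcon
  have hxd : ∀ j : Fin (d + 1) ⊕ Fin (d + 1), HasDerivAt (fun τ : ℂ => vals (x τ) j)
      ((Sum.elim x' fun j => -x' j / x 1 j ^ 2 : Fin (d + 1) ⊕ Fin (d + 1) → ℂ) j) 1 := by
    rintro (j | j)
    · exact hx j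
    · exact (hx j).inv (hx0 j)
  have hA := hasDerivAt_eval₂' (σ := σ) hxd Q
  rw [Fintype.sum_sum_type] at hA
  simp only [Sum.elim_inl, Sum.elim_inr] at hA
  have hz : ∑ j, eval₂ σ (vals (x 1)) (pderiv (Sum.inl j) Q) * x' j +
      ∑ j, eval₂ σ (vals (x 1)) (pderiv (Sum.inr j) Q) * (-x' j / x 1 j ^ 2) = 0 := by
    rw [← Finset.sum_add_distrib]
    refine Finset.sum_eq_zero fun j _ => ?_
    have h3 := hcon j
    unfold dlog at h3
    rw [eval₂_sub, eval₂_mul, eval₂_mul, eval₂_X, eval₂_X] at h3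
    change x 1 j * _ - (x 1 j)⁻¹ * _ = 0 at h3
    have h4 := hx0 j
    field_simp at h3 ⊢
    linear_combination x' j * h3
  rw [hz] at hA
  exact hD0 (hD.unique hA)

theorem crd_smul (τ : ℂ) (y : (Fin d → ℂ) × ℂ) (i : Fin (d + 1)) :
    crd (τ • y) i = τ * crd y i := by
  refine Fin.cases ?_ (fun k => ?_) i
  · rfl
  · rfl

theorem grad_end (σ : K →+* ℂ) (hg : F.g = 1) {A : Fin (d + 1) → Fin (d + 1) → ℤ}
    (hA : ∀ e, (∀ k, 0 < A k ⬝ᵥ F.al e) ∨ ∀ k, A k ⬝ᵥ F.al e < 0) {y : (Fin d → ℂ) × ℂ}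
    (hy : ∀ i, crd y i ≠ 0) {lam : K} (hl : lam ≠ 0) (hS : 0 < ∑ k, nz F A k)
    (hlt : ‖fderiv ℂ (We σ F A) y y‖ < ‖We σ F A y‖) :
    ∃ j, eval₂ σ (vals (xe A y)) (dlog j (F.Phi lam)) ≠ 0 := by
  have hWc : ContDiff ℂ 2 (We σ F A) := contDiff_prod fun e _ => contDiff_prod fun i _ =>
    (contDiff_Ve σ A e i).pow _
  have h1y : (1 : ℂ) • y = y := one_smul _ _
  have hxd : ∀ j, DifferentiableAt ℂ (fun τ : ℂ => xe A (τ • y) j) 1 := by
    intro j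
    unfold xe
    simp only [crd_smul]
    refine DifferentiableAt.fun_finsetProd fun i _ => ?_
    refine DifferentiableAt.zpow (by fun_prop) (Or.inl ?_)
    rw [one_mul]
    exact hy i
  have hs : HasDerivAt (fun τ : ℂ => τ • y) y 1 := by
    have h1 := (hasDerivAt_id (1 : ℂ)).smul_const y
    simpa using h1
  have hWd : HasDerivAt (fun τ : ℂ => We σ F A (τ • y)) (fderiv ℂ (We σ F A) y y) 1 := by
    have h2 : HasFDerivAt (We σ F A) (fderiv ℂ (We σ F A) y) ((1 : ℂ) • y) := by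
      rw [h1y]
      exact ((hWc.differentiable (by norm_num)) y).hasFDerivAt
    exact h2.comp_hasDerivAt (1 : ℂ) hs
  set S : ℤ := ∑ k, nz F A k with hSdef
  set c : ℂ := σ lam * ∏ k, crd y k ^ (-(nz F A k)) with hc
  have hc0 : c ≠ 0 := mul_ne_zero ((map_ne_zero σ).2 hl)
    (Finset.prod_ne_zero_iff.2 fun k _ => zpow_ne_zero _ (hy k))
  have hzd : HasDerivAt (fun τ : ℂ => τ ^ (-S)) (((-S : ℤ) : ℂ) * 1 ^ (-S - 1)) 1 :=
    hasDerivAt_zpow _ _ (Or.inl one_ne_zero)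
  have hD := (hzd.mul hWd).const_mul c
  have hev : (fun τ : ℂ => eval₂ σ (vals (xe A (τ • y))) (F.Phi lam)) =ᶠ[𝓝 (1 : ℂ)]
      fun τ => c * ((fun τ : ℂ => τ ^ (-S)) * fun τ : ℂ => We σ F A (τ • y)) τ := by
    have h0 : ∀ᶠ τ : ℂ in 𝓝 1, τ ≠ 0 := isOpen_ne.mem_nhds one_ne_zero
    filter_upwards [h0] with τ hτ
    rw [eval_Phi_xe σ hg hA (fun i => by
      rw [crd_smul]
      exact mul_ne_zero hτ (hy i))]
    simp only [crd_smul, mul_zpow, Finset.prod_mul_distrib, Pi.mul_apply]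
    rw [prod_zpow_const _ hτ, Finset.sum_neg_distrib, hc]
    ring
  have hD' := hD.congr_of_eventuallyEq hev
  have h3 := grad_curve (fun j => (hxd j).hasDerivAt) (fun j => by
    rw [h1y]
    exact xe_ne hy j) hD' ?_
  · obtain ⟨j, hj⟩ := h3
    rw [h1y] at hj
    exact ⟨j, hj⟩
  · refine mul_ne_zero hc0 ?_
    simp only [one_zpow, mul_one, one_mul, h1y]
    intro h
    have h4 : fderiv ℂ (We σ F A) y y = (S : ℂ) * We σ F A y := by
      push_cast at h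
      linear_combination h
    rw [h4, norm_mul, Complex.norm_intCast] at hlt
    have h5 : (1 : ℝ) ≤ |(S : ℝ)| := by
      rw [abs_of_pos (by exact_mod_cast hS)]
      exact_mod_cast hS
    have h6 : ‖We σ F A y‖ ≤ |(S : ℝ)| * ‖We σ F A y‖ := le_mul_of_one_le_left (norm_nonneg _) h5
    linarith

end Pool.Agent.K7.H1.TU
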