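import Pool.Agent.K7.H1.TU.ET
set_option autoImplicit false

/-!
The torus at the end of the hypersurface: existence and regulators.
-/

namespace Pool.Agent.K7.H1.TU

open MvPolynomial

open Filter Topology

open Pool.Agent.TH826.MK (Torus Good pairing symb)

open Pool.Agent.TH577.UA (mmon contDiff_mmon mmon_zero_ne mmon_zero_eq mrow yrow det_yrow)

open Pool.Agent.K7.H1.AH (mmon_eq crd mmon_smul eventually_lt_norm)

open Pool.Agent.K7.H1.TO Pool.Agent.K7.H1.TO.Arr

variable {K : Type*} [Field K] {d m : ℕ} {F : Arr K d m}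

theorem mmon_single (k : Fin (d + 1)) (y : (Fin d → ℂ) × ℂ) :
    mmon (Pi.single k 1) y = crd y k := by
  rw [mmon_eq]
  exact prod_single _ _

theorem mrow_single (r : ℕ) (N : Fin d → ℕ) (i j : Fin (d + 1)) :
    mrow r N (Pi.single i 1) j = yrow r N i j := by
  unfold mrow
  rw [Finset.sum_eq_single i]
  · rw [Pi.single_eq_same, Nat.cast_one, one_mul]
  · intro b _ hb
    rw [Pi.single_eq_of_ne hb, Nat.cast_zero, zero_mul]
  · exact fun h => absurd (Finset.mem_univ _) h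

theorem contDiff_zpow' {f : (Fin d → ℝ) → ℂ} (hf : ContDiff ℝ 2 f) (h0 : ∀ θ, f θ ≠ 0) (n : ℤ) :
    ContDiff ℝ 2 fun θ => f θ ^ n := by
  cases n with
  | ofNat n => simpa using hf.pow n
  | negSucc n =>
    simp only [zpow_negSucc]
    exact (hf.pow (n + 1)).inv fun θ => pow_ne_zero _ (h0 θ)

theorem contDiff_xe {A : Fin (d + 1) → Fin (d + 1) → ℤ} {U : (Fin d → ℝ) → (Fin d → ℂ) × ℂ}
    (hU : ContDiff ℝ 2 U) (h0 : ∀ θ i, crd (U θ) i ≠ 0) : ContDiff ℝ 2 fun θ => xe A (U θ) := by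
  refine contDiff_pi.2 fun j => ?_
  unfold xe
  refine contDiff_prod fun i _ => contDiff_zpow' ?_ (fun θ => h0 θ i) _
  refine Fin.cases ?_ (fun k => ?_) i
  · exact hU.snd
  · exact contDiff_pi.1 hU.fst k

theorem exists_end (σ : K →+* ℂ) {A : Fin (d + 1) → Fin (d + 1) → ℤ}
    (hAdet : (Matrix.of A).det ≠ 0)
    (hA : ∀ e, (∀ k, 0 < A k ⬝ᵥ F.al e) ∨ ∀ k, A k ⬝ᵥ F.al e < 0)
    (hz : ∀ e i, F.z e i ≠ 0) (hg : F.g = 1) (hin : Inner F)
    {I : Type*} [Fintype I] (Tp : I → Fin (d + 1) → Fin m) (kp : ∀ i l, Fin (F.r (Tp i l))) :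
    ∃ D : ℝ, D ≠ 0 ∧ ∀ ε : ℝ, 0 < ε →
    ∃ Λ : ℝ, 0 < Λ ∧ ∀ lam : K, lam ≠ 0 → ‖σ lam‖ < Λ → Real.log ‖σ lam‖ < 0 ∧
      ∃ Γ : Torus (F.TRing lam) d,
      (∀ θ x, Γ.e θ (F.tcst lam x) = σ x) ∧
      (∀ θ, ∃ j, Γ.e θ (F.tpol lam (dlog j (F.Phi lam))) ≠ 0) ∧
      |Γ.reg (symb (F.tx lam)) / Real.log ‖σ lam‖ - D| ≤ ε ∧
      ∀ i, |Γ.reg (symb (F.ent lam (Tp i) (kp i))) / Real.log ‖σ lam‖| ≤ ε := by
  classical
  have hAne : ∀ k, A k ≠ 0 := by
    intro k h
    exact hAdet (Matrix.det_eq_zero_of_row_eq_zero k fun j => by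
      rw [Matrix.of_apply, h]
      rfl)
  have hnz : ∀ k, 0 < nz F A k := by
    intro k
    have := hin (A k) (hAne k)
    unfold nz
    linarith
  obtain ⟨nn, hnn⟩ : ∃ nn : Fin (d + 1) → ℕ, ∀ k, nz F A k = (nn k : ℤ) + 1 :=
    ⟨fun k => (nz F A k - 1).toNat, fun k => by
      have := hnz k
      rw [Int.toNat_of_nonneg (by omega)]
      ring⟩
  let ι : Type := ((k : Fin (d + 1)) × Fin (nn k + 1)) ⊕ Unit
  let κ : Type := (e : Fin m) × Fin (F.r e + 1)
  have hWc : ContDiff ℂ 2 (We σ F A) := contDiff_prod fun e _ => contDiff_prod fun i _ =>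
    (contDiff_Ve σ A e i).pow _
  have hW0 : We σ F A 0 ≠ 0 := Finset.prod_ne_zero_iff.2 fun e _ =>
    Finset.prod_ne_zero_iff.2 fun i _ => pow_ne_zero _ (Ve_zero σ hA hz e i)
  set μ : ι → Fin (d + 1) → ℕ := Sum.elim (fun p => Pi.single p.1 1) fun _ => 0 with hμ
  set hh : ι → (Fin d → ℂ) × ℂ → ℂ := Sum.elim (fun _ _ => 1) (fun _ y => (We σ F A y)⁻¹)
    with hhh
  set HH : ι → (Fin d → ℂ) × ℂ → ℂ := Sum.elim (fun p y => crd y p.1)
    (fun _ y => (We σ F A y)⁻¹) with hHH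
  have hHHe : ∀ e y, HH e y = mmon (μ e) y * hh e y := by
    rintro (p | p) y
    · show crd y p.1 = mmon (Pi.single p.1 1) y * 1
      rw [mmon_single, mul_one]
    · show (We σ F A y)⁻¹ = mmon (fun _ => 0) y * (We σ F A y)⁻¹
      rw [mmon_zero_eq (fun _ => rfl), one_mul]
  set N : Fin d → ℕ := fun k => ∑ e, μ e k.succ with hN
  set r : ℕ := ∑ e, μ e 0 with hr
  have hr0 : 0 < r := by
    have h1 : μ (Sum.inl ⟨0, 0⟩) 0 ≤ r :=
      Finset.single_le_sum (f := fun e => μ e 0) (fun _ _ => Nat.zero_le _) (Finset.mem_univ _)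
    refine lt_of_lt_of_le ?_ h1
    show 0 < (Pi.single (0 : Fin (d + 1)) 1 : Fin (d + 1) → ℕ) 0
    rw [Pi.single_eq_same]
    exact Nat.one_pos
  set V : κ → (Fin d → ℂ) × ℂ → ℂ := fun p => Ve σ F A p.1 p.2 with hV
  set Dm : Matrix (Fin (d + 1)) (Fin (d + 1)) ℝ :=
    (-((Matrix.of A).map (Int.castRingHom ℝ))).transpose * Matrix.of (yrow r N) with hDm
  have hDmdet : Dm.det ≠ 0 := by
    rw [hDm, Matrix.det_mul, Matrix.det_transpose, Matrix.det_neg]
    refine mul_ne_zero (mul_ne_zero (pow_ne_zero _ (by norm_num)) ?_) (det_yrow hr0 N)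
    rw [← RingHom.mapMatrix_apply, ← RingHom.map_det]
    show ((Matrix.of A).det : ℝ) ≠ 0
    exact_mod_cast hAdet
  refine ⟨(2 * Real.pi) ^ d * Dm.det, mul_ne_zero
    (pow_ne_zero _ (by have := Real.pi_pos; positivity)) hDmdet, fun ε hε => ?_⟩
  set pw : (Fin (d + 1) → ℕ) → ι ⊕ κ → ℕ := fun c => Sum.elim
    (Sum.elim (fun p => if p.2 = 0 then c p.1 else 0) fun _ => 0) fun _ => 0 with hpw
  set a : Option I → Fin (d + 1) → ι ⊕ κ → ℕ := fun i l =>
    Option.elim i (pw fun k => (-(A k l)).toNat)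
      fun i => Pi.single (Sum.inr ⟨Tp i l, (kp i l).succ⟩) 1 with ha
  set b : Option I → Fin (d + 1) → ι ⊕ κ → ℕ := fun i l =>
    Option.elim i (pw fun k => (A k l).toNat)
      fun i => Pi.single (Sum.inr ⟨Tp i l, 0⟩) 1 with hb
  have hpwprod : ∀ (c : Fin (d + 1) → ℕ) y,
      ∏ e, Sum.elim HH V e y ^ pw c e = ∏ k, crd y k ^ c k := by
    intro c y
    rw [Fintype.prod_sum_type, Fintype.prod_sum_type, Fintype.prod_sigma]
    simp only [hpw, Sum.elim_inl, Sum.elim_inr, pow_zero, Finset.prod_const_one, mul_one]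
    refine Finset.prod_congr rfl fun k _ => ?_
    rw [Finset.prod_eq_single 0]
    · rw [if_pos rfl]
      rfl
    · intro i _ hi
      rw [if_neg hi, pow_zero]
    · exact fun h => absurd (Finset.mem_univ _) h
  have hpwsum : ∀ (c : Fin (d + 1) → ℕ) j,
      ∑ e : ι, (pw c (Sum.inl e) : ℝ) * mrow r N (μ e) j = ∑ k, (c k : ℝ) * yrow r N k j := by
    intro c j
    rw [Fintype.sum_sum_type, Fintype.sum_sigma]
    simp only [hpw, Sum.elim_inl, Sum.elim_inr, Nat.cast_zero, zero_mul, Finset.sum_const_zero,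
      add_zero]
    refine Finset.sum_congr rfl fun k _ => ?_
    rw [Finset.sum_eq_single 0]
    · rw [if_pos rfl]
      congr 1
      exact mrow_single r N k j
    · intro i _ hi
      rw [if_neg hi, Nat.cast_zero, zero_mul]
    · exact fun h => absurd (Finset.mem_univ _) h
  obtain ⟨η0, hη0, hX⟩ := engine2 (r := r) (N := N) (H := HH) (h := hh) (V := V)
    (Filter.Eventually.of_forall fun u e => hHHe e u)
    (by
      rintro (p | p)
      · exact contDiffAt_const
      · exact hWc.contDiffAt.inv hW0)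
    (by
      rintro (p | p)
      · exact one_ne_zero
      · exact inv_ne_zero hW0) rfl hr0
    (fun k => rfl) (fun p => (contDiff_Ve σ A p.1 p.2).contDiffAt)
    (fun p => Ve_zero σ hA hz p.1 p.2) (eventually_lt_norm hWc hW0) a b hε
  refine ⟨η0, hη0, fun lam hl0 hlam => ?_⟩
  have hl0' : σ lam ≠ 0 := (map_ne_zero σ).2 hl0
  obtain ⟨hlog, U, hUc, hUp, hUe, hUP, hUg, hUest⟩ := hX _ hl0' hlam
  have hcrd : ∀ θ k, crd (U θ) k ≠ 0 := fun θ k => (hUg (Sum.inl (Sum.inl ⟨k, 0⟩))).ne_zero θ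
  set X : (Fin d → ℝ) → (Fin (d + 1) → ℂ) := fun θ => xe A (U θ) with hXdef
  have hXc : ContDiff ℝ 2 X := contDiff_xe hUc hcrd
  have hXp : ∀ θ i, X (θ + Pi.single i 1) = X θ := fun θ i => by
    simp only [hXdef, hUp]
  have hPt : ∀ θ, PtT σ F lam (X θ) := fun θ => by
    refine ⟨xe_ne (hcrd θ), ?_⟩
    show eval₂ σ (vals (xe A (U θ))) (F.Phi lam) = 1
    rw [eval_Phi_xe σ hg hA (hcrd θ)]
    have h1 := hUe θ
    rw [Fintype.prod_sum_type, Fintype.prod_sigma] at h1
    have h2 : ∀ k, ∏ i : Fin (nn k + 1), HH (Sum.inl ⟨k, i⟩) (U θ) = crd (U θ) k ^ nz F A k := by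
      intro k
      show ∏ i : Fin (nn k + 1), crd (U θ) k = _
      rw [Finset.prod_const, Finset.card_univ, Fintype.card_fin, hnn, ← zpow_natCast]
      push_cast
      rfl
    simp only [h2] at h1
    have h3 : ∏ u : Unit, HH (Sum.inr u) (U θ) = (We σ F A (U θ))⁻¹ := by
      rw [Finset.univ_unique, Finset.prod_singleton]
      rfl
    rw [h3] at h1
    have h4 : We σ F A (U θ) ≠ 0 := by
      intro h
      rw [h, inv_zero, mul_zero] at h1
      exact hl0' h1.symm
    rw [← h1]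
    have h5 : (∏ k, crd (U θ) k ^ nz F A k) * ∏ k, crd (U θ) k ^ (-nz F A k) = 1 := by
      rw [← Finset.prod_mul_distrib]
      refine Finset.prod_eq_one fun k _ => ?_
      rw [← zpow_add₀ (hcrd θ k), add_neg_cancel, zpow_zero]
    calc (∏ k, crd (U θ) k ^ nz F A k) * (We σ F A (U θ))⁻¹ *
          (∏ k, crd (U θ) k ^ (-nz F A k)) * We σ F A (U θ)
        = ((∏ k, crd (U θ) k ^ nz F A k) * ∏ k, crd (U θ) k ^ (-nz F A k)) *
          ((We σ F A (U θ))⁻¹ * We σ F A (U θ)) := by ring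
      _ = 1 := by rw [h5, inv_mul_cancel₀ h4, one_mul]
  have hgr : ∀ θ, ∃ j, (mkT X hXc hXp hPt).e θ (F.tpol lam (dlog j (F.Phi lam))) ≠ 0 := by
    intro θ
    obtain ⟨j, hj⟩ := grad_end σ hg hA (hcrd θ) hl0
      (Finset.sum_pos (fun k _ => hnz k) Finset.univ_nonempty) (hUP θ)
    refine ⟨j, ?_⟩
    have h2 : (mkT X hXc hXp hPt).e θ (F.tpol lam (dlog j (F.Phi lam))) =
        eval₂ σ (vals (X θ)) (dlog j (F.Phi lam)) := evT_tpol (hPt θ) _
    rw [h2]
    exact hj
  refine ⟨hlog, mkT X hXc hXp hPt, fun θ x => evT_tcst (hPt θ) x, hgr, ?_, fun i => ?_⟩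
  · set Γ := mkT X hXc hXp hPt with hΓ
    have h1 := hUest none (fun l => Γ.fn (F.tx lam l : F.TRing lam)) (fun l => Γ.good _)
      (fun l θ => by
        show _ * ∏ e, Sum.elim HH V e (U θ) ^ pw (fun k => (A k l).toNat) e =
          ∏ e, Sum.elim HH V e (U θ) ^ pw (fun k => (-(A k l)).toNat) e
        rw [hpwprod (fun k => (A k l).toNat) (U θ), hpwprod (fun k => (-(A k l)).toNat) (U θ)]
        have h3 : Γ.fn (F.tx lam l : F.TRing lam) θ = X θ l := by
          show evT (hPt θ) (F.tpol lam (MvPolynomial.X (Sum.inl l))) = X θ l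
          rw [evT_tpol, eval₂_X]
          rfl
        rw [h3]
        show xe A (U θ) l * _ = _
        unfold xe
        rw [← Finset.prod_mul_distrib]
        refine Finset.prod_congr rfl fun k _ => ?_
        rw [← zpow_natCast, ← zpow_natCast, ← zpow_add₀ (hcrd θ k)]
        congr 1
        omega)
    have h2 : (Matrix.of fun l j => ∑ e : ι, ((a none l (Sum.inl e) : ℝ) - b none l (Sum.inl e)) *
        mrow r N (μ e) j) = Dm := by
      ext l j
      rw [Matrix.of_apply]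
      show ∑ e : ι, ((pw (fun k => (-(A k l)).toNat) (Sum.inl e) : ℝ) -
        pw (fun k => (A k l).toNat) (Sum.inl e)) * mrow r N (μ e) j = _
      simp only [sub_mul, Finset.sum_sub_distrib]
      rw [hpwsum (fun k => (-(A k l)).toNat) j, hpwsum (fun k => (A k l).toNat) j,
        ← Finset.sum_sub_distrib, hDm, Matrix.mul_apply]
      refine Finset.sum_congr rfl fun k _ => ?_
      rw [← sub_mul, Matrix.transpose_apply, Matrix.neg_apply, Matrix.map_apply,
        Matrix.of_apply, Matrix.of_apply]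
      congr 1
      have h5 : (((-(A k l)).toNat : ℤ) : ℝ) - (((A k l).toNat : ℤ) : ℝ) = ((-(A k l) : ℤ) : ℝ) := by
        rw [← Int.cast_sub]
        congr 1
        omega
      rw [Int.cast_natCast, Int.cast_natCast] at h5
      rw [h5]
      simp
    rw [h2] at h1
    rw [Torus.reg_symb]
    exact h1
  · set Γ := mkT X hXc hXp hPt with hΓ
    have h1 := hUest (some i) (fun l => Γ.fn (F.ent lam (Tp i) (kp i) l : F.TRing lam))
      (fun l => Γ.good _) (fun l θ => by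
        simp only [ha, hb, Option.elim]
        rw [prod_single, prod_single]
        show _ * Ve σ F A (Tp i l) 0 (U θ) = Ve σ F A (Tp i l) (kp i l).succ (U θ)
        have h2 : ∀ s, Γ.e θ (F.tf lam (Tp i l) s : F.TRing lam) =
            (∏ k, crd (U θ) k ^ (-(max 0 (A k ⬝ᵥ F.al (Tp i l))))) *
              Ve σ F A (Tp i l) s (U θ) := fun s => by
          rw [← fac_xe σ hA (hcrd θ)]
          exact evT_tf (hPt θ) _ _
        have h3 : (∏ k, crd (U θ) k ^ (-(max 0 (A k ⬝ᵥ F.al (Tp i l))))) ≠ 0 :=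
          Finset.prod_ne_zero_iff.2 fun k _ => zpow_ne_zero _ (hcrd θ k)
        have h4 : Γ.fn (F.ent lam (Tp i) (kp i) l : F.TRing lam) θ *
            Γ.e θ (F.tf lam (Tp i l) 0 : F.TRing lam) =
            Γ.e θ (F.tf lam (Tp i l) (kp i l).succ : F.TRing lam) := by
          unfold Torus.fn
          rw [← map_mul]
          congr 1
          unfold ent
          rw [← Units.val_mul, div_mul_cancel]
        rw [h2, h2] at h4
        refine mul_left_cancel₀ h3 ?_
        rw [← h4]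
        ring)
    have h2 : (Matrix.of fun l j => ∑ e : ι,
        ((a (some i) l (Sum.inl e) : ℝ) - b (some i) l (Sum.inl e)) * mrow r N (μ e) j) = 0 := by
      ext l j
      rw [Matrix.of_apply]
      refine Finset.sum_eq_zero fun e _ => ?_
      simp only [ha, hb, Option.elim]
      rw [Pi.single_eq_of_ne (by simp), Pi.single_eq_of_ne (by simp)]
      simp
    rw [h2, Matrix.det_zero, mul_zero, sub_zero] at h1
    rw [Torus.reg_symb]
    exact h1

end Pool.Agent.K7.H1.TU
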