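import Pool.Agent.K7.H1.TU.Gen
import Pool.Agent.K7.H1.AH.Grad
set_option autoImplicit false

/-!
Small tori in the complex varieties `∏_e H_e = η` and the regulators of symbols, whose entries are
monomials in the functions `H_e` and in functions without zeros.
-/

namespace Pool.Agent.K7.H1.TU

open Filter Topology

open Pool.Agent.TH826.MK

open Pool.Agent.TH826.SX (pairing_close)

open Pool.Agent.TH577.UA (mmon mmon_zero_eq mrow yrow)

variable {d : ℕ}

section mon

variable {τ : Type*} [Fintype τ] {f : τ → (Fin d → ℝ) → ℂ}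

theorem good_mon (hf : ∀ e, Good (f e)) (a : τ → ℕ) : Good fun θ => ∏ e, f e θ ^ a e :=
  ⟨contDiff_prod fun e _ => (hf e).smooth.pow _,
    fun θ => Finset.prod_ne_zero_iff.2 fun e _ => pow_ne_zero _ ((hf e).ne_zero θ)⟩

theorem log_mon (hf : ∀ e, Good (f e)) (a : τ → ℕ) (θ : Fin d → ℝ) :
    Real.log ‖∏ e, f e θ ^ a e‖ = ∑ e, (a e : ℝ) * Real.log ‖f e θ‖ := by
  rw [norm_prod, Real.log_prod]
  · refine Finset.sum_congr rfl fun e _ => ?_
    rw [norm_pow, Real.log_pow]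
  · intro e _
    exact norm_ne_zero_iff.2 (pow_ne_zero _ ((hf e).ne_zero θ))

theorem lw_pow {g : (Fin d → ℝ) → ℂ} (hg : Good g) (n : ℕ) (j : Fin d) (θ : Fin d → ℝ) :
    lw (fun θ => g θ ^ n) j θ = n * lw g j θ := by
  have h := lw_prod (Finset.range n) (F := fun _ => g) (fun _ => hg) j θ
  simp only [Finset.prod_const, Finset.card_range, Finset.sum_const, nsmul_eq_mul] at h
  exact h

theorem lw_mon (hf : ∀ e, Good (f e)) (a : τ → ℕ) (j : Fin d) (θ : Fin d → ℝ) :
    lw (fun θ => ∏ e, f e θ ^ a e) j θ = ∑ e, (a e : ℂ) * lw (f e) j θ := by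
  classical
  rw [lw_prod Finset.univ (F := fun e θ => f e θ ^ a e)
    (fun e => ⟨(hf e).smooth.pow _, fun θ => pow_ne_zero _ ((hf e).ne_zero θ)⟩) j θ]
  exact Finset.sum_congr rfl fun e _ => lw_pow (hf e) _ j θ

end mon

theorem mrow_zero' (r : ℕ) (N : Fin d → ℕ) (j : Fin (d + 1)) :
    mrow r N (fun _ => 0) j = 0 := by
  unfold mrow
  exact Finset.sum_eq_zero fun i _ => by rw [Nat.cast_zero, zero_mul]

theorem engine2 {ι κ I : Type*} [Fintype ι] [Fintype κ] [Fintype I] [Nonempty I]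
    {H h : ι → (Fin d → ℂ) × ℂ → ℂ} {μ : ι → Fin (d + 1) → ℕ} {r : ℕ} {N : Fin d → ℕ}
    (hH : ∀ᶠ u in 𝓝 (0 : (Fin d → ℂ) × ℂ), ∀ e, H e u = mmon (μ e) u * h e u)
    (hc : ∀ e, ContDiffAt ℂ 2 (h e) 0)
    (h0 : ∀ e, h e 0 ≠ 0) (hμ : ∑ e, μ e 0 = r) (hr : 0 < r)
    (hN : ∀ k : Fin d, ∑ e, μ e k.succ = N k)
    {V : κ → (Fin d → ℂ) × ℂ → ℂ} (hV : ∀ e, ContDiffAt ℂ 2 (V e) 0) (hV0 : ∀ e, V e 0 ≠ 0)
    {P : (Fin d → ℂ) × ℂ → Prop} (hP : ∀ᶠ y in 𝓝 (0 : (Fin d → ℂ) × ℂ), P y)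
    (a b : I → Fin (d + 1) → ι ⊕ κ → ℕ) {ε : ℝ} (hε : 0 < ε) :
    ∃ η0 : ℝ, 0 < η0 ∧ ∀ η : ℂ, η ≠ 0 → ‖η‖ < η0 → Real.log ‖η‖ < 0 ∧
      ∃ X : (Fin d → ℝ) → (Fin d → ℂ) × ℂ, ContDiff ℝ 2 X ∧
        (∀ θ i, X (θ + Pi.single i 1) = X θ) ∧ (∀ θ, ∏ e, H e (X θ) = η) ∧ (∀ θ, P (X θ)) ∧
        (∀ e, Good fun θ => Sum.elim H V e (X θ)) ∧
        ∀ i, ∀ G : Fin (d + 1) → (Fin d → ℝ) → ℂ, (∀ l, Good (G l)) →
          (∀ l θ, G l θ * ∏ e, Sum.elim H V e (X θ) ^ b i l e =
            ∏ e, Sum.elim H V e (X θ) ^ a i l e) →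
          |pairing G / Real.log ‖η‖ - (2 * Real.pi) ^ d *
            (Matrix.of fun l j => ∑ e, ((a i l (Sum.inl e) : ℝ) - b i l (Sum.inl e)) *
              mrow r N (μ e) j).det| ≤ ε := by
  classical
  choose δ hδ hclose using fun i : I =>
    pairing_close (Matrix.of fun l j => ∑ e, ((a i l (Sum.inl e) : ℝ) - b i l (Sum.inl e)) *
      mrow r N (μ e) j) hε
  obtain ⟨i0, -, hi0⟩ := Finset.exists_min_image Finset.univ δ
    ⟨Classical.arbitrary I, Finset.mem_univ _⟩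
  set S : ℝ := ∑ i : I, ∑ l, ∑ e, |(a i l e : ℝ) - b i l e| with hS
  have hS0 : 0 ≤ S := Finset.sum_nonneg fun i _ => Finset.sum_nonneg fun l _ =>
    Finset.sum_nonneg fun e _ => abs_nonneg _
  have hSle : ∀ i l, ∑ e, |(a i l e : ℝ) - b i l e| ≤ S := fun i l =>
    (Finset.single_le_sum (f := fun l => ∑ e, |(a i l e : ℝ) - b i l e|)
      (fun l _ => Finset.sum_nonneg fun e _ => abs_nonneg _) (Finset.mem_univ l)).trans
    (Finset.single_le_sum (f := fun i => ∑ l, ∑ e, |(a i l e : ℝ) - b i l e|)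
      (fun i _ => Finset.sum_nonneg fun l _ => Finset.sum_nonneg fun e _ => abs_nonneg _)
      (Finset.mem_univ i))
  set δ0 : ℝ := δ i0 / (2 * (S + 1)) with hδ0
  have hδ0pos : 0 < δ0 := by
    have := hδ i0
    positivity
  have hδle : ∀ i, S * δ0 < δ i := by
    intro i
    have h1 := hi0 i (Finset.mem_univ i)
    have h2 := hδ i0
    have h3 : S * δ0 = δ i0 * (S / (2 * (S + 1))) := by rw [hδ0]; ring
    have h4 : S / (2 * (S + 1)) < 1 := by
      rw [div_lt_one (by positivity)]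
      linarith
    have h5 : δ i0 * (S / (2 * (S + 1))) < δ i0 * 1 := mul_lt_mul_of_pos_left h4 h2
    linarith
  obtain ⟨η0, hη0, hX⟩ := exists_points2 (ι := ι ⊕ (κ ⊕ κ))
    (H := Sum.elim H (Sum.elim V fun e y => (V e y)⁻¹))
    (h := Sum.elim h (Sum.elim V fun e y => (V e y)⁻¹)) (μ := Sum.elim μ fun _ _ => 0)
    (q := r) (N := N) (by
      filter_upwards [hH] with u hu
      rintro (e | e | e)
      · exact hu e
      · show V e u = mmon (fun _ => 0) u * V e u
        rw [mmon_zero_eq (fun _ => rfl), one_mul]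
      · show (V e u)⁻¹ = mmon (fun _ => 0) u * (V e u)⁻¹
        rw [mmon_zero_eq (fun _ => rfl), one_mul])
    (by
      rintro (e | e | e)
      · exact hc e
      · exact hV e
      · exact (hV e).inv (hV0 e))
    (by
      rintro (e | e | e)
      · exact h0 e
      · exact hV0 e
      · exact inv_ne_zero (hV0 e))
    (by
      rw [Fintype.sum_sum_type]
      simp only [Sum.elim_inl, Sum.elim_inr, Finset.sum_const_zero, add_zero]
      exact hμ) hr
    (fun k => by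
      rw [Fintype.sum_sum_type]
      simp only [Sum.elim_inl, Sum.elim_inr, Finset.sum_const_zero, add_zero]
      exact hN k) hδ0pos hP
  refine ⟨η0, hη0, fun η hη hlt => ?_⟩
  obtain ⟨hlog, X, hXc, hXp, hXe, hXP, hXg, hest⟩ := hX η hη hlt
  have hgood : ∀ e, Good fun θ => Sum.elim H V e (X θ) := by
    rintro (e | e)
    · exact hXg (Sum.inl e)
    · exact hXg (Sum.inr (Sum.inl e))
  have hests : ∀ (e : ι ⊕ κ) θ,
      |Real.log ‖Sum.elim H V e (X θ)‖ / Real.log ‖η‖ -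
        mrow r N (Sum.elim μ (fun _ _ => 0) e) 0| ≤ δ0 ∧
      ∀ j, ‖lw (fun θ => Sum.elim H V e (X θ)) j θ -
        2 * Real.pi * Complex.I * mrow r N (Sum.elim μ (fun _ _ => 0) e) j.succ‖ ≤ δ0 := by
    rintro (e | e) θ
    · exact hest (Sum.inl e) θ
    · exact hest (Sum.inr (Sum.inl e)) θ
  refine ⟨hlog, X, hXc, hXp, fun θ => ?_, hXP, hgood, fun i G hG hGe => ?_⟩
  · have h1 := hXe θ
    rw [Fintype.prod_sum_type, Fintype.prod_sum_type] at h1
    simp only [Sum.elim_inl, Sum.elim_inr] at h1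
    have h2 : (∏ e, V e (X θ)) * ∏ e, (V e (X θ))⁻¹ = 1 := by
      rw [← Finset.prod_mul_distrib]
      refine Finset.prod_eq_one fun e _ => mul_inv_cancel₀ ?_
      exact (hXg (Sum.inr (Sum.inl e))).ne_zero θ
    rw [h2, mul_one] at h1
    exact h1
  · have hM : ∀ l j, ∑ e : ι, ((a i l (Sum.inl e) : ℝ) - b i l (Sum.inl e)) *
        mrow r N (μ e) j = ∑ e : ι ⊕ κ, ((a i l e : ℝ) - b i l e) *
          mrow r N (Sum.elim μ (fun _ _ => 0) e) j := by
      intro l j
      rw [Fintype.sum_sum_type]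
      simp only [Sum.elim_inl, Sum.elim_inr, mrow_zero', mul_zero, Finset.sum_const_zero,
        add_zero]
    have hfun : ∀ l, (fun θ => G l θ * ∏ e, Sum.elim H V e (X θ) ^ b i l e) =
        fun θ => ∏ e, Sum.elim H V e (X θ) ^ a i l e := fun l => funext fun θ => hGe l θ
    refine hclose i G _ hlog.ne hG (fun l θ => ?_) (fun l j θ => ?_)
    · rw [Matrix.of_apply, hM]
      have h3 : Real.log ‖G l θ * ∏ e, Sum.elim H V e (X θ) ^ b i l e‖ =
          Real.log ‖∏ e, Sum.elim H V e (X θ) ^ a i l e‖ := by rw [hGe]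
      rw [norm_mul, Real.log_mul (norm_ne_zero_iff.2 ((hG l).ne_zero θ))
        (norm_ne_zero_iff.2 ((good_mon hgood _).ne_zero θ)), log_mon hgood, log_mon hgood] at h3
      have h4 : Real.log ‖G l θ‖ / Real.log ‖η‖ - ∑ e : ι ⊕ κ, ((a i l e : ℝ) - b i l e) *
          mrow r N (Sum.elim μ (fun _ _ => 0) e) 0 = ∑ e : ι ⊕ κ, ((a i l e : ℝ) - b i l e) *
            (Real.log ‖Sum.elim H V e (X θ)‖ / Real.log ‖η‖ -
              mrow r N (Sum.elim μ (fun _ _ => 0) e) 0) := by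
        have h5 : Real.log ‖G l θ‖ = ∑ e : ι ⊕ κ, ((a i l e : ℝ) - b i l e) *
            Real.log ‖Sum.elim H V e (X θ)‖ := by
          simp only [sub_mul, Finset.sum_sub_distrib]
          linarith
        rw [h5, Finset.sum_div, ← Finset.sum_sub_distrib]
        exact Finset.sum_congr rfl fun e _ => by ring
      rw [h4]
      refine lt_of_le_of_lt (Finset.abs_sum_le_sum_abs _ _) (lt_of_le_of_lt ?_ (hδle i))
      calc ∑ e : ι ⊕ κ, |((a i l e : ℝ) - b i l e) *
            (Real.log ‖Sum.elim H V e (X θ)‖ / Real.log ‖η‖ -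
              mrow r N (Sum.elim μ (fun _ _ => 0) e) 0)|
          ≤ ∑ e : ι ⊕ κ, |(a i l e : ℝ) - b i l e| * δ0 := by
            refine Finset.sum_le_sum fun e _ => ?_
            rw [abs_mul]
            exact mul_le_mul_of_nonneg_left (hests e θ).1 (abs_nonneg _)
        _ ≤ S * δ0 := by
            rw [← Finset.sum_mul]
            exact mul_le_mul_of_nonneg_right (hSle i l) hδ0pos.le
    · rw [Matrix.of_apply, hM]
      have h3 := lw_mul (hG l) (good_mon hgood (b i l)) j θ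
      rw [hfun l, lw_mon hgood, lw_mon hgood] at h3
      have h4 : lw (G l) j θ - 2 * Real.pi * Complex.I *
          ((∑ e : ι ⊕ κ, ((a i l e : ℝ) - b i l e) *
            mrow r N (Sum.elim μ (fun _ _ => 0) e) j.succ : ℝ) : ℂ) =
          ∑ e : ι ⊕ κ, (((a i l e : ℝ) - b i l e : ℝ) : ℂ) *
            (lw (fun θ => Sum.elim H V e (X θ)) j θ - 2 * Real.pi * Complex.I *
              mrow r N (Sum.elim μ (fun _ _ => 0) e) j.succ) := by
        have h5 : lw (G l) j θ = ∑ e : ι ⊕ κ, (((a i l e : ℝ) - b i l e : ℝ) : ℂ) *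
            lw (fun θ => Sum.elim H V e (X θ)) j θ := by
          push_cast
          simp only [sub_mul, Finset.sum_sub_distrib]
          rw [h3]
          ring
        rw [h5]
        push_cast
        rw [Finset.mul_sum, ← Finset.sum_sub_distrib]
        exact Finset.sum_congr rfl fun e _ => by ring
      rw [h4]
      refine lt_of_le_of_lt (norm_sum_le _ _) (lt_of_le_of_lt ?_ (hδle i))
      calc ∑ e : ι ⊕ κ, ‖(((a i l e : ℝ) - b i l e : ℝ) : ℂ) *
            (lw (fun θ => Sum.elim H V e (X θ)) j θ - 2 * Real.pi * Complex.I *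
              mrow r N (Sum.elim μ (fun _ _ => 0) e) j.succ)‖
          ≤ ∑ e : ι ⊕ κ, |(a i l e : ℝ) - b i l e| * δ0 := by
            refine Finset.sum_le_sum fun e _ => ?_
            rw [norm_mul, Complex.norm_real, Real.norm_eq_abs]
            exact mul_le_mul_of_nonneg_left ((hests e θ).2 j) (abs_nonneg _)
        _ ≤ S * δ0 := by
            rw [← Finset.sum_mul]
            exact mul_le_mul_of_nonneg_right (hSle i l) hδ0pos.le

end Pool.Agent.K7.H1.TU
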